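import Mathlib

set_option autoImplicit false

/-!
# Flip graphs of multitriangulations and of pseudoline arrangements on a sorting network

Definitions for the question whether shortest flip paths between two pseudoline arrangements with
the same support can flip a common contact point.
-/

namespace Q53.MultiTri

open Finset

/-! ### multitriangulations of a convex polygon -/

/-- An edge (a side or a diagonal) of the convex polygon with vertices `0, …, n - 1`, numbered in
cyclic order: a pair of vertices `a < b`. -/
abbrev Edge (n : ℕ) : Type := {e : Fin n × Fin n // e.1 < e.2}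

/-- Two edges cross if they have four distinct endpoints which alternate around the polygon. -/
def Cross {n : ℕ} (e f : Edge n) : Prop :=
  (e.1.1 < f.1.1 ∧ f.1.1 < e.1.2 ∧ e.1.2 < f.1.2) ∨
    (f.1.1 < e.1.1 ∧ e.1.1 < f.1.2 ∧ f.1.2 < e.1.2)

instance {n : ℕ} (e f : Edge n) : Decidable (Cross e f) := by unfold Cross; infer_instance

/-- `T` contains no `k + 1` pairwise crossing edges. -/
def CrossFree (k : ℕ) {n : ℕ} (T : Finset (Edge n)) : Prop :=
  ∀ C ⊆ T, (∀ e ∈ C, ∀ f ∈ C, e ≠ f → Cross e f) → C.card ≤ k

/-- The `k`-triangulations of the convex `n`-gon: the maximal sets of edges without `k + 1`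
pairwise crossing edges. -/
abbrev KTri (k n : ℕ) : Type :=
  {T : Finset (Edge n) // CrossFree k T ∧ ∀ S : Finset (Edge n), T ⊆ S → CrossFree k S → S = T}

/-- The flip graph of the `k`-triangulations of the convex `n`-gon: two of them are adjacent if
one is obtained from the other by exchanging one edge for another one. -/
def flipGraph (k n : ℕ) : SimpleGraph (KTri k n) where
  Adj S T := (S.1 \ T.1).card = 1 ∧ (T.1 \ S.1).card = 1
  symm := ⟨fun _ _ h => ⟨h.2, h.1⟩⟩
  loopless := ⟨fun S h => by simp at h⟩

/-! ### pseudoline arrangements supported by a sorting network -/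

section Network

variable {n m : ℕ}

/-- A sorting network with `n + 1` horizontal levels and `m` commutators, numbered from left to
right, is given by a map `Q`: the commutator `t` joins the two consecutive levels `Q t` and
`Q t + 1`. Drawn in the strip `[0, 1] × ℝ` whose two ends are glued by `(0, y) ∼ (1, -y)` it
becomes a graph in the Moebius strip, with one vertex for every commutator. Let `X` be the set of
the commutators at which the curves running along the levels touch; at the other commutators they
cross. `occ Q X t l` is the index of the curve which runs along the level `l` just before the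
commutator `t`, where the curve `a` starts on the level `a` at the left end of the strip. -/
def occ (Q : Fin m → Fin n) (X : Finset (Fin m)) : ℕ → Fin (n + 1) → Fin (n + 1)
  | 0, l => l
  | t + 1, l =>
    if h : t < m then
      if (⟨t, h⟩ : Fin m) ∈ X then occ Q X t l
      else occ Q X t (Equiv.swap (Q ⟨t, h⟩).castSucc (Q ⟨t, h⟩).succ l)
    else occ Q X t l

/-- the two curves which meet at the commutator `t` -/
def meet (Q : Fin m → Fin n) (X : Finset (Fin m)) (t : Fin m) : Sym2 (Fin (n + 1)) :=
  s(occ Q X t (Q t).castSucc, occ Q X t (Q t).succ)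

/-- `X` is the set of contact points of a pseudoline arrangement supported by the network: any two
of the `n + 1` curves cross exactly once. (Then the curve which starts on the level `a` ends on the
level `n - a`, so that it closes up in the Moebius strip.) -/
def IsArr (Q : Fin m → Fin n) (X : Finset (Fin m)) : Prop :=
  ∀ a b : Fin (n + 1), a ≠ b → (univ.filter fun t => t ∉ X ∧ meet Q X t = s(a, b)).card = 1

/-- `Y` is obtained from `X` by the flip of the contact point `v`: if the two curves which touch at
`v` cross at `w`, then `w` becomes a contact point instead of `v`. -/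
def IsFlip (Q : Fin m → Fin n) (X Y : Finset (Fin m)) : Prop :=
  ∃ v ∈ X, ∃ w, w ∉ X ∧ meet Q X v = meet Q X w ∧ Y = insert w (X.erase v)

/-- The flip graph of the pseudoline arrangements supported by the network. -/
def netGraph (Q : Fin m → Fin n) : SimpleGraph {X : Finset (Fin m) // IsArr Q X} where
  Adj X Y := X ≠ Y ∧ (IsFlip Q X.1 Y.1 ∨ IsFlip Q Y.1 X.1)
  symm := ⟨fun _ _ h => ⟨h.1.symm, h.2.symm⟩⟩
  loopless := ⟨fun _ h => h.1 rfl⟩

end Network

/-! ### lengths of walks -/

/-- along a walk which exchanges one element in every step at most as many elements are exchanged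
as there are steps -/
lemma card_sdiff_le {V ι : Type*} [DecidableEq ι] {G : SimpleGraph V} (φ : V → Finset ι)
    (h : ∀ S T, G.Adj S T → (φ S \ φ T).card ≤ 1) {S T : V} (p : G.Walk S T) :
    (φ S \ φ T).card ≤ p.length := by
  induction p with
  | nil => simp
  | @cons u v w huv q ih =>
    rw [SimpleGraph.Walk.length_cons]
    have h1 : φ u \ φ w ⊆ (φ u \ φ v) ∪ (φ v \ φ w) := by
      intro x hx
      rw [mem_sdiff] at hx
      rw [mem_union, mem_sdiff, mem_sdiff]
      by_cases hv : x ∈ φ v
      · exact Or.inr ⟨hv, hx.2⟩
      · exact Or.inl ⟨hx.1, hv⟩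
    have h2 := (card_le_card h1).trans (card_union_le _ _)
    have h3 := h u v huv
    omega

/-- the argument for both flip graphs -/
lemma short_walk {V ι : Type*} [DecidableEq ι] {G : SimpleGraph V} (φ : V → Finset ι)
    (h : ∀ S T, G.Adj S T → (φ S \ φ T).card ≤ 1) (e : ι) (A B : V)
    (hAB : 5 ≤ (φ A \ φ B).card)
    (h2 : ∀ S T, G.Adj A S → G.Adj S T → e ∈ φ S → e ∈ φ T → 5 ≤ (φ T \ φ B).card)
    (p : G.Walk A B) (hp : p.length ≤ 6) : ∃ S ∈ p.support, e ∉ φ S := by
  by_contra hcon
  push Not at hcon
  cases p with
  | nil => simp at hAB
  | @cons _ S _ h1 q =>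
    cases q with
    | nil =>
      have := h _ _ h1
      omega
    | @cons _ T _ h3 r =>
      have hr := card_sdiff_le φ h r
      simp only [SimpleGraph.Walk.length_cons] at hp
      have := h2 S T h1 h3 (hcon S (by simp)) (hcon T (by simp))
      omega

end Q53.MultiTri
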