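import Mathlib
import Pool.Agent.Q53.MultiTri.Defs

set_option autoImplicit false

/-!
# Two 2-triangulations of the decagon
-/

namespace Q53.MultiTri.Deca

open Finset Q53.MultiTri

/-- the 25 edges which can lie in a 3-crossing -/
def lab : Fin 25 → Edge 10 :=
  ![⟨(0, 3), by decide⟩, ⟨(0, 4), by decide⟩, ⟨(0, 5), by decide⟩, ⟨(0, 6), by decide⟩,
    ⟨(0, 7), by decide⟩, ⟨(1, 4), by decide⟩, ⟨(1, 5), by decide⟩, ⟨(1, 6), by decide⟩,
    ⟨(1, 7), by decide⟩, ⟨(1, 8), by decide⟩, ⟨(2, 5), by decide⟩, ⟨(2, 6), by decide⟩,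
    ⟨(2, 7), by decide⟩, ⟨(2, 8), by decide⟩, ⟨(2, 9), by decide⟩, ⟨(3, 6), by decide⟩,
    ⟨(3, 7), by decide⟩, ⟨(3, 8), by decide⟩, ⟨(3, 9), by decide⟩, ⟨(4, 7), by decide⟩,
    ⟨(4, 8), by decide⟩, ⟨(4, 9), by decide⟩, ⟨(5, 8), by decide⟩, ⟨(5, 9), by decide⟩,
    ⟨(6, 9), by decide⟩]

/-- the edges crossing a given edge, as a bit mask -/
def cm : Fin 25 → ℕ :=
  ![32736, 524224, 4193152, 16741120, 32924160, 523265, 4192259, 16740359, 32923663, 27541535,
    4161571, 16711783, 32899311, 27525631, 1023, 16254054, 32509166, 27270654, 16382, 29396172,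
    25271772, 245724, 17406360, 1817496, 5976848]

lemma cm_spec : ∀ i j : Fin 25, (cm i).testBit j = true ↔ Cross (lab i) (lab j) := by
  decide +kernel

/-- relevant edges -/
def Rel (e : Edge 10) : Prop := 3 ≤ (e.1.2 : ℕ) - e.1.1 ∧ (e.1.2 : ℕ) - e.1.1 ≤ 7

instance (e : Edge 10) : Decidable (Rel e) := by unfold Rel; infer_instance

lemma rel_surj : ∀ e : Edge 10, Rel e → ∃ i, lab i = e := by decide +kernel

lemma rel_lab : ∀ i, Rel (lab i) := by decide +kernel

lemma lab_inj : Function.Injective lab := by decide +kernel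

lemma cross_ne {n : ℕ} {e f : Edge n} (h : Cross e f) : e ≠ f := by
  rintro rfl
  rcases h with h | h <;> exact absurd h.1 (lt_irrefl _)

lemma cross_symm {n : ℕ} {e f : Edge n} (h : Cross e f) : Cross f e := h.symm

lemma irr {e f g : Edge 10} (he : ¬ Rel e) (h1 : Cross e f) (h2 : Cross e g) : ¬ Cross f g := by
  obtain ⟨⟨a, b⟩, hab⟩ := e
  obtain ⟨⟨c, d⟩, hcd⟩ := f
  obtain ⟨⟨x, y⟩, hxy⟩ := g
  simp only [Rel, Cross, Fin.lt_def] at *
  omega

/-- the set of edges given by a bit mask -/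
def toSet (m : ℕ) : Finset (Edge 10) :=
  univ.filter (fun e => ¬ Rel e ∨ ∃ i : Fin 25, m.testBit i = true ∧ lab i = e)

lemma mem_toSet {m : ℕ} {e : Edge 10} :
    e ∈ toSet m ↔ ¬ Rel e ∨ ∃ i : Fin 25, m.testBit i = true ∧ lab i = e := by
  simp [toSet]

lemma lab_mem {m : ℕ} {i : Fin 25} : lab i ∈ toSet m ↔ m.testBit i = true := by
  rw [mem_toSet]
  constructor
  · rintro (h | ⟨j, hj, h⟩)
    · exact absurd (rel_lab i) h
    · rwa [← lab_inj h]
  · exact fun h => Or.inr ⟨i, h, rfl⟩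

/-- a 3-crossing through `j` -/
def Has3 (m : ℕ) (j : Fin 25) : Prop :=
  ∃ a : Fin 25, (m &&& cm j).testBit a = true ∧
    ∃ l : Fin 25, (m &&& cm j &&& cm a).testBit l = true

instance (m : ℕ) (j : Fin 25) : Decidable (Has3 m j) := by unfold Has3; infer_instance

lemma not_crossFree {T : Finset (Edge 10)} {m : ℕ} {j : Fin 25} (hj : lab j ∈ T)
    (hT : ∀ a : Fin 25, m.testBit a = true → lab a ∈ T) (h : Has3 m j) : ¬ CrossFree 2 T := by
  obtain ⟨a, ha, l, hl⟩ := h
  rw [Nat.testBit_land, Bool.and_eq_true] at ha hl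
  rw [Nat.testBit_land, Bool.and_eq_true] at hl
  obtain ⟨⟨hl0, hl1⟩, hl2⟩ := hl
  have c1 := (cm_spec _ _).mp ha.2
  have c2 := (cm_spec _ _).mp hl1
  have c3 := (cm_spec _ _).mp hl2
  intro hc
  have := hc {lab j, lab a, lab l} (by
    intro x hx
    simp only [mem_insert, mem_singleton] at hx
    rcases hx with rfl | rfl | rfl
    · exact hj
    · exact hT _ ha.1
    · exact hT _ hl0) (by
    intro e he f hf hef
    simp only [mem_insert, mem_singleton] at he hf
    rcases he with rfl | rfl | rfl <;> rcases hf with rfl | rfl | rfl <;>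
      first
      | exact absurd rfl hef
      | exact c1
      | exact c2
      | exact c3
      | exact cross_symm c1
      | exact cross_symm c2
      | exact cross_symm c3)
  rw [card_eq_three.mpr ⟨_, _, _, cross_ne c1, cross_ne c2, cross_ne c3, rfl⟩] at this
  omega

lemma irr_mem (T : KTri 2 10) {e : Edge 10} (he : ¬ Rel e) : e ∈ T.1 := by
  have h := T.2.2 (insert e T.1) (subset_insert _ _) (by
    intro C hC hcr
    by_cases heC : e ∈ C
    · by_contra h3
      push Not at h3
      have h4 : 1 < (C.erase e).card := by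
        rw [card_erase_of_mem heC]; omega
      obtain ⟨f, hf, g, hg, hfg⟩ := one_lt_card.mp h4
      rw [mem_erase] at hf hg
      exact irr he (hcr e heC f hf.2 hf.1.symm) (hcr e heC g hg.2 hg.1.symm)
        (hcr f hf.2 g hg.2 hfg)
    · exact T.2.1 C (fun x hx => by
        rcases mem_insert.mp (hC hx) with rfl | h
        · exact absurd hx heC
        · exact h) hcr)
  rw [← h]
  exact mem_insert_self _ _

lemma isKTri (m : ℕ) (h1 : ∀ j : Fin 25, m.testBit j = true → ¬ Has3 m j)
    (h2 : ∀ j : Fin 25, ¬ m.testBit j = true → Has3 m j) :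
    CrossFree 2 (toSet m) ∧ ∀ S : Finset (Edge 10), toSet m ⊆ S → CrossFree 2 S → S = toSet m := by
  constructor
  · intro C hC hcr
    by_contra h3
    push Not at h3
    obtain ⟨e, f, g, he, hf, hg, hef, heg, hfg⟩ := two_lt_card_iff.mp h3
    have ce := hcr e he f hf hef
    have cg := hcr e he g hg heg
    have cf := hcr f hf g hg hfg
    have re : Rel e := by
      by_contra h; exact irr h ce cg cf
    have rf : Rel f := by
      by_contra h; exact irr h (cross_symm ce) cf cg
    have rg : Rel g := by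
      by_contra h; exact irr h (cross_symm cg) (cross_symm cf) ce
    obtain ⟨i, rfl⟩ := rel_surj e re
    obtain ⟨a, rfl⟩ := rel_surj f rf
    obtain ⟨l, rfl⟩ := rel_surj g rg
    have bi := lab_mem.mp (hC he)
    have ba := lab_mem.mp (hC hf)
    have bl := lab_mem.mp (hC hg)
    refine h1 i bi ⟨a, ?_, l, ?_⟩
    · rw [Nat.testBit_land, ba, (cm_spec _ _).mpr ce]; rfl
    · rw [Nat.testBit_land, Nat.testBit_land, bl, (cm_spec _ _).mpr cg, (cm_spec _ _).mpr cf]; rfl
  · intro S hS hc
    refine Subset.antisymm ?_ hS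
    intro x hx
    rw [mem_toSet]
    by_cases hr : Rel x
    · obtain ⟨j, rfl⟩ := rel_surj x hr
      by_cases hb : m.testBit j = true
      · exact Or.inr ⟨j, hb, rfl⟩
      · exact absurd hc (not_crossFree hx (fun a ha => hS (lab_mem.mpr ha)) (h2 j hb))
    · exact Or.inl hr

/-- bit masks along the flip graph -/
def ex (m : ℕ) (i j : Fin 25) : ℕ := m ^^^ 2 ^ (i : ℕ) ^^^ 2 ^ (j : ℕ)

lemma testBit_ex (m : ℕ) (i j a : Fin 25) :
    (ex m i j).testBit a = ((m.testBit a ^^ decide (i = a)) ^^ decide (j = a)) := by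
  rw [ex, Nat.testBit_xor, Nat.testBit_xor, Nat.testBit_two_pow, Nat.testBit_two_pow]
  simp only [Fin.val_inj]

lemma adj_mask {S T : KTri 2 10} (h : (flipGraph 2 10).Adj S T) {m : ℕ} (hm : S.1 = toSet m) :
    ∃ i j : Fin 25, m.testBit i = true ∧ ¬ m.testBit j = true ∧ T.1 = toSet (ex m i j) ∧
      lab i ∉ T.1 ∧ ¬ Has3 (ex m i j) j := by
  obtain ⟨h1, h2⟩ := h
  obtain ⟨e, he⟩ := card_eq_one.mp h1
  obtain ⟨f, hf⟩ := card_eq_one.mp h2
  have e1 : e ∈ S.1 \ T.1 := by rw [he]; exact mem_singleton_self _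
  have f1 : f ∈ T.1 \ S.1 := by rw [hf]; exact mem_singleton_self _
  rw [mem_sdiff] at e1 f1
  obtain ⟨i, rfl⟩ := rel_surj e (by
    by_contra hr; exact e1.2 (irr_mem T hr))
  obtain ⟨j, rfl⟩ := rel_surj f (by
    by_contra hr; exact f1.2 (irr_mem S hr))
  have bi : m.testBit i = true := lab_mem.mp (hm ▸ e1.1)
  have bj : ¬ m.testBit j = true := fun h => f1.2 (hm ▸ lab_mem.mpr h)
  have hT : ∀ x, x ∈ T.1 ↔ (x ∈ S.1 ∧ x ≠ lab i) ∨ x = lab j := by
    intro x
    constructor
    · intro hx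
      by_cases hxS : x ∈ S.1
      · refine Or.inl ⟨hxS, ?_⟩
        rintro rfl
        exact e1.2 hx
      · right
        have : x ∈ T.1 \ S.1 := mem_sdiff.mpr ⟨hx, hxS⟩
        rw [hf] at this
        exact mem_singleton.mp this
    · rintro (⟨hx, hne⟩ | rfl)
      · by_contra hxT
        have : x ∈ S.1 \ T.1 := mem_sdiff.mpr ⟨hx, hxT⟩
        rw [he] at this
        exact hne (mem_singleton.mp this)
      · exact f1.1
  have hTm : T.1 = toSet (ex m i j) := by
    ext x
    by_cases hr : Rel x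
    · obtain ⟨a, rfl⟩ := rel_surj x hr
      rw [hT, lab_mem, testBit_ex, hm, lab_mem]
      simp only [ne_eq, lab_inj.eq_iff]
      by_cases h1 : i = a
      · subst h1
        have hij : ¬ j = i := by rintro rfl; exact bj bi
        have hij' : ¬ i = j := fun h => hij h.symm
        simp [bi, hij, hij']
      · by_cases h2 : j = a
        · subst h2
          simp [bj, h1]
        · have h1' : ¬ a = i := fun h => h1 h.symm
          have h2' : ¬ a = j := fun h => h2 h.symm
          simp [h1, h2, h1', h2']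
    · exact iff_of_true (irr_mem T hr) (mem_toSet.mpr (Or.inl hr))
  refine ⟨i, j, bi, bj, hTm, e1.2, ?_⟩
  intro h3
  refine not_crossFree (T := T.1) f1.1 ?_ h3 T.2.1
  intro a ha
  rw [hTm]
  exact lab_mem.mpr ha

/-- first and last mask -/
abbrev mA : ℕ := 3671135
/-- last mask -/
abbrev mB : ℕ := 3908099

/-- number of edges of the mask `m` which are not in the last mask -/
def cnt (m : ℕ) : ℕ := (univ.filter fun i : Fin 25 => m.testBit i = true ∧ ¬ mB.testBit i = true).card

lemma closure : ∀ i j : Fin 25, mA.testBit i = true → ¬ mA.testBit j = true → i ≠ 21 →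
    ¬ Has3 (ex mA i j) j → ∀ i' j' : Fin 25, (ex mA i j).testBit i' = true →
      ¬ (ex mA i j).testBit j' = true → i' ≠ 21 → ¬ Has3 (ex (ex mA i j) i' j') j' →
      5 ≤ cnt (ex (ex mA i j) i' j') := by
  decide +kernel

lemma cnt_le (m : ℕ) : cnt m ≤ (toSet m \ toSet mB).card := by
  rw [cnt, ← card_map ⟨lab, lab_inj⟩]
  apply card_le_card
  intro x hx
  rw [mem_map] at hx
  obtain ⟨i, hi, rfl⟩ := hx
  rw [mem_filter] at hi
  exact mem_sdiff.mpr ⟨lab_mem.mpr hi.2.1, fun h => hi.2.2 (lab_mem.mp h)⟩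

/-- the 2-triangulation with a given mask -/
def tri (m : ℕ) (h1 : ∀ j : Fin 25, m.testBit j = true → ¬ Has3 m j)
    (h2 : ∀ j : Fin 25, ¬ m.testBit j = true → Has3 m j) : KTri 2 10 := ⟨toSet m, isKTri m h1 h2⟩

def T0 : KTri 2 10 := tri 3671135 (by decide +kernel) (by decide +kernel)
def T1 : KTri 2 10 := tri 1574495 (by decide +kernel) (by decide +kernel)
def T2 : KTri 2 10 := tri 1582623 (by decide +kernel) (by decide +kernel)
def T3 : KTri 2 10 := tri 1712671 (by decide +kernel) (by decide +kernel)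
def T4 : KTri 2 10 := tri 1745435 (by decide +kernel) (by decide +kernel)
def T5 : KTri 2 10 := tri 1810963 (by decide +kernel) (by decide +kernel)
def T6 : KTri 2 10 := tri 3908099 (by decide +kernel) (by decide +kernel)

lemma adj_of {m m' : ℕ} (h1 h2 h1' h2') (i j : Fin 25)
    (hi : m.testBit i = true ∧ ¬ m'.testBit i = true)
    (hj : m'.testBit j = true ∧ ¬ m.testBit j = true)
    (h : ∀ a : Fin 25, a ≠ i → a ≠ j → (m.testBit a = true ↔ m'.testBit a = true)) :
    (flipGraph 2 10).Adj (tri m h1 h2) (tri m' h1' h2') := by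
  have key : ∀ {m m' : ℕ} {i j : Fin 25}, m.testBit i = true ∧ ¬ m'.testBit i = true →
      m'.testBit j = true ∧ ¬ m.testBit j = true →
      (∀ a : Fin 25, a ≠ i → a ≠ j → (m.testBit a = true ↔ m'.testBit a = true)) →
      toSet m \ toSet m' = {lab i} := by
    intro m m' i j hi hj h
    ext x
    rw [mem_sdiff, mem_singleton]
    constructor
    · rintro ⟨hx, hx'⟩
      have hr : Rel x := by
        by_contra hr; exact hx' (mem_toSet.mpr (Or.inl hr))
      obtain ⟨a, rfl⟩ := rel_surj x hr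
      rw [lab_mem] at hx hx'
      by_contra hne
      have hai : a ≠ i := fun h => hne (by rw [h])
      have haj : a ≠ j := by rintro rfl; exact hj.2 hx
      exact hx' ((h a hai haj).mp hx)
    · rintro rfl
      exact ⟨lab_mem.mpr hi.1, fun h => hi.2 (lab_mem.mp h)⟩
  constructor
  · change (toSet m \ toSet m').card = 1
    rw [key hi hj h, card_singleton]
  · change (toSet m' \ toSet m).card = 1
    rw [key hj hi (fun a h1 h2 => (h a h2 h1).symm), card_singleton]

lemma a01 : (flipGraph 2 10).Adj T0 T1 := adj_of _ _ _ _ 21 9 (by decide) (by decide) (by decide)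
lemma a12 : (flipGraph 2 10).Adj T1 T2 := adj_of _ _ _ _ 6 13 (by decide) (by decide) (by decide)
lemma a23 : (flipGraph 2 10).Adj T2 T3 := adj_of _ _ _ _ 10 17 (by decide) (by decide) (by decide)
lemma a34 : (flipGraph 2 10).Adj T3 T4 := adj_of _ _ _ _ 2 15 (by decide) (by decide) (by decide)
lemma a45 : (flipGraph 2 10).Adj T4 T5 := adj_of _ _ _ _ 3 16 (by decide) (by decide) (by decide)
lemma a56 : (flipGraph 2 10).Adj T5 T6 := adj_of _ _ _ _ 4 21 (by decide) (by decide) (by decide)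

/-- a walk of length 6 -/
def walk : (flipGraph 2 10).Walk T0 T6 :=
  .cons a01 <| .cons a12 <| .cons a23 <| .cons a34 <| .cons a45 <| .cons a56 .nil

theorem main : lab 21 ∈ T0.1 ∧ lab 21 ∈ T6.1 ∧ walk.length = 6 ∧
    ∀ p : (flipGraph 2 10).Walk T0 T6, p.length ≤ 6 → ∃ S ∈ p.support, lab 21 ∉ S.1 := by
  refine ⟨(lab_mem (m := mA)).mpr (by decide), (lab_mem (m := mB)).mpr (by decide), rfl, ?_⟩
  intro p hp
  refine short_walk (fun T : KTri 2 10 => T.1)
    (fun S T (h : (flipGraph 2 10).Adj S T) => h.1.le) (lab 21) T0 T6 ?_ ?_ p hp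
  · refine le_trans ?_ (cnt_le mA)
    decide +kernel
  · intro S T hS hT heS heT
    obtain ⟨i, j, bi, bj, hS1, hi, h3⟩ := adj_mask hS (m := mA) rfl
    obtain ⟨i', j', bi', bj', hT1, hi', h3'⟩ := adj_mask hT hS1
    have hi21 : i ≠ 21 := by rintro rfl; exact hi heS
    have hi21' : i' ≠ 21 := by rintro rfl; exact hi' heT
    have := closure i j bi bj hi21 h3 i' j' bi' bj' hi21' h3'
    refine this.trans ((cnt_le _).trans (le_of_eq ?_))
    rw [← hT1]
    rfl

end Q53.MultiTri.Deca
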