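import Mathlib
import Pool.Agent.Q53.MultiTri.Defs

set_option autoImplicit false

/-!
# Six pseudolines with ten contact points
-/

namespace Q53.MultiTri.Net

open Finset Q53.MultiTri

/-- the network -/
def Q : Fin 25 → Fin 5 :=
  ![0, 1, 2, 3, 4, 0, 1, 2, 3, 4, 0, 1, 2, 3, 4, 0, 1, 2, 3, 0, 1, 2, 0, 1, 0]

def A : Finset (Fin 25) := {0, 1, 2, 3, 4, 6, 10, 19, 20, 21}
def B : Finset (Fin 25) := {0, 1, 9, 13, 15, 16, 17, 19, 20, 21}

instance {n m : ℕ} (Q : Fin m → Fin n) (X : Finset (Fin m)) : Decidable (IsArr Q X) := by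
  unfold IsArr; infer_instance

instance {n m : ℕ} (Q : Fin m → Fin n) (X Y : Finset (Fin m)) : Decidable (IsFlip Q X Y) := by
  unfold IsFlip; infer_instance

/-- one exchange -/
abbrev ex (X : Finset (Fin 25)) (v w : Fin 25) : Finset (Fin 25) := insert w (X.erase v)

/-- the two curves meeting at `v` and at `w` agree before or after the exchange -/
abbrev Ok (X : Finset (Fin 25)) (v w : Fin 25) : Prop :=
  meet Q X v = meet Q X w ∨ meet Q (ex X v w) v = meet Q (ex X v w) w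

lemma adj_cases {X Y : {X : Finset (Fin 25) // IsArr Q X}} (h : (netGraph Q).Adj X Y) :
    ∃ v ∈ X.1, ∃ w, w ∉ X.1 ∧ Y.1 = ex X.1 v w ∧ Ok X.1 v w := by
  rcases h.2 with ⟨v, hv, w, hw, hm, hY⟩ | ⟨v, hv, w, hw, hm, hX⟩
  · exact ⟨v, hv, w, hw, hY, Or.inl hm⟩
  · have hvw : v ≠ w := fun h => hw (h ▸ hv)
    have hY : Y.1 = ex X.1 w v := by
      rw [hX]
      ext x
      simp only [mem_insert, mem_erase]
      constructor
      · intro hx
        by_cases hxv : x = v
        · exact Or.inl hxv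
        · refine Or.inr ⟨?_, Or.inr ⟨hxv, hx⟩⟩
          rintro rfl
          exact hw hx
      · rintro (rfl | ⟨h1, h2 | h2⟩)
        · exact hv
        · exact absurd h2 h1
        · exact h2.2
    refine ⟨w, ?_, v, ?_, hY, Or.inr ?_⟩
    · rw [hX]; exact mem_insert_self _ _
    · rw [hX]
      simp [hvw]
    · rw [← hY]; exact hm.symm

lemma closure : ∀ v ∈ A, ∀ w : Fin 25, w ∉ A → v ≠ 21 → Ok A v w →
    ∀ v' ∈ ex A v w, ∀ w' : Fin 25, w' ∉ ex A v w → v' ≠ 21 → Ok (ex A v w) v' w' →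
      5 ≤ (ex (ex A v w) v' w' \ B).card := by
  decide +kernel

def X0 : {X : Finset (Fin 25) // IsArr Q X} := ⟨A, by decide +kernel⟩
def X1 : {X : Finset (Fin 25) // IsArr Q X} :=
  ⟨{0, 1, 2, 3, 4, 6, 9, 10, 19, 20}, by decide +kernel⟩
def X2 : {X : Finset (Fin 25) // IsArr Q X} :=
  ⟨{0, 1, 2, 3, 4, 9, 10, 13, 19, 20}, by decide +kernel⟩
def X3 : {X : Finset (Fin 25) // IsArr Q X} :=
  ⟨{0, 1, 2, 3, 4, 9, 13, 17, 19, 20}, by decide +kernel⟩
def X4 : {X : Finset (Fin 25) // IsArr Q X} :=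
  ⟨{0, 1, 3, 4, 9, 13, 15, 17, 19, 20}, by decide +kernel⟩
def X5 : {X : Finset (Fin 25) // IsArr Q X} :=
  ⟨{0, 1, 4, 9, 13, 15, 16, 17, 19, 20}, by decide +kernel⟩
def X6 : {X : Finset (Fin 25) // IsArr Q X} := ⟨B, by decide +kernel⟩

lemma a01 : (netGraph Q).Adj X0 X1 := by
  refine ⟨fun h => ?_, Or.inl ?_⟩
  · exact absurd (congrArg Subtype.val h) (by decide +kernel)
  · unfold X0 X1; decide +kernel
lemma a12 : (netGraph Q).Adj X1 X2 := by
  refine ⟨fun h => ?_, Or.inl ?_⟩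
  · exact absurd (congrArg Subtype.val h) (by decide +kernel)
  · unfold X1 X2; decide +kernel
lemma a23 : (netGraph Q).Adj X2 X3 := by
  refine ⟨fun h => ?_, Or.inl ?_⟩
  · exact absurd (congrArg Subtype.val h) (by decide +kernel)
  · unfold X2 X3; decide +kernel
lemma a34 : (netGraph Q).Adj X3 X4 := by
  refine ⟨fun h => ?_, Or.inl ?_⟩
  · exact absurd (congrArg Subtype.val h) (by decide +kernel)
  · unfold X3 X4; decide +kernel
lemma a45 : (netGraph Q).Adj X4 X5 := by
  refine ⟨fun h => ?_, Or.inl ?_⟩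
  · exact absurd (congrArg Subtype.val h) (by decide +kernel)
  · unfold X4 X5; decide +kernel
lemma a56 : (netGraph Q).Adj X5 X6 := by
  refine ⟨fun h => ?_, Or.inl ?_⟩
  · exact absurd (congrArg Subtype.val h) (by decide +kernel)
  · unfold X5 X6; decide +kernel

/-- a walk of length 6 -/
def walk : (netGraph Q).Walk X0 X6 :=
  .cons a01 <| .cons a12 <| .cons a23 <| .cons a34 <| .cons a45 <| .cons a56 .nil

theorem main : (21 : Fin 25) ∈ X0.1 ∧ (21 : Fin 25) ∈ X6.1 ∧ walk.length = 6 ∧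
    ∀ p : (netGraph Q).Walk X0 X6, p.length ≤ 6 → ∃ S ∈ p.support, (21 : Fin 25) ∉ S.1 := by
  refine ⟨by decide, by decide, rfl, ?_⟩
  intro p hp
  refine short_walk (fun T : {X : Finset (Fin 25) // IsArr Q X} => T.1)
    (fun S T (h : (netGraph Q).Adj S T) => ?_) 21 X0 X6 ?_ ?_ p hp
  · obtain ⟨v, hv, w, hw, hY, -⟩ := adj_cases h
    change (S.1 \ T.1).card ≤ 1
    rw [hY, ← card_singleton v]
    apply card_le_card
    intro x hx
    rw [mem_sdiff, mem_insert, mem_erase] at hx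
    rw [mem_singleton]
    by_contra hne
    exact hx.2 (Or.inr ⟨hne, hx.1⟩)
  · change 5 ≤ (A \ B).card
    decide
  · intro S T hS hT heS heT
    obtain ⟨v, hv, w, hw, hS1, h1⟩ := adj_cases hS
    obtain ⟨v', hv', w', hw', hT1, h2⟩ := adj_cases hT
    change (21 : Fin 25) ∈ S.1 at heS
    change (21 : Fin 25) ∈ T.1 at heT
    change 5 ≤ (T.1 \ B).card
    change v ∈ A at hv
    change w ∉ A at hw
    change S.1 = ex A v w at hS1
    change Ok A v w at h1
    rw [hS1] at hv' hw' hT1 h2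
    have e1 : v ≠ 21 := by
      rintro rfl
      rw [hS1, mem_insert, mem_erase] at heS
      rcases heS with rfl | h
      · exact hw (by decide)
      · exact h.1 rfl
    have e2 : v' ≠ 21 := by
      rintro rfl
      rw [hT1, mem_insert, mem_erase] at heT
      rcases heT with h | h
      · rw [hS1] at heS
        exact hw' (h ▸ heS)
      · exact h.1 rfl
    rw [hT1]
    exact closure v hv w hw e1 h1 v' hv' w' hw' e2 h2

end Q53.MultiTri.Net
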